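import Pool.Agent.L7h78.RS.Cox

/-!
# Groups with a cocycle of reflections are Coxeter groups: the presentation
-/

set_option autoImplicit false

namespace Pool.Agent.L7h78.RS

open Pool.Agent.Helper741 (alt alt_succ alt_zero alt_comm_of_pow)

variable {G B : Type} [Group G]

/-- the alternating word of length `k` which starts with `x` -/
def alw (x y : B) : ℕ → List B
  | 0 => []
  | k + 1 => x :: alw y x k

@[simp] theorem alw_zero (x y : B) : alw x y 0 = [] := rfl

theorem alw_succ (x y : B) (k : ℕ) : alw x y (k + 1) = x :: alw y x k := rfl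

@[simp] theorem alw_length (x y : B) (k : ℕ) : (alw x y k).length = k := by
  induction k generalizing x y with
  | zero => rfl
  | succ k ih => simp [alw_succ, ih]

theorem alw_prefix (x y : B) (a b : ℕ) : ∃ υ, alw x y (a + b) = alw x y a ++ υ := by
  induction a generalizing x y with
  | zero => exact ⟨_, rfl⟩
  | succ a ih =>
    obtain ⟨υ, hυ⟩ := ih y x
    exact ⟨υ, by rw [show a + 1 + b = (a + b) + 1 by ring, alw_succ, alw_succ, hυ]; rfl⟩

theorem mem_alw {x y c : B} {k : ℕ} (h : c ∈ alw x y k) : c = x ∨ c = y := by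
  induction k generalizing x y with
  | zero => simp at h
  | succ k ih =>
    rw [alw_succ, List.mem_cons] at h
    rcases h with h | h
    · exact Or.inl h
    · exact (ih h).symm

variable {s : B → G} {I : G → Set G}

theorem pr_alw (x y : B) (k : ℕ) : pr s (alw x y k) = alt (s x) (s y) k := by
  induction k generalizing x y with
  | zero => simp
  | succ k ih => rw [alw_succ, pr_cons, ih, alt_succ]

theorem alt_mul_inv {a b : G} (ha : a * a = 1) (hb : b * b = 1) (k : ℕ) :
    alt a b k * (alt b a k)⁻¹ = (a * b) ^ k := by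
  induction k generalizing a b with
  | zero => simp
  | succ k ih =>
    have h1 : ∀ k : ℕ, a * (b * a) ^ k = (a * b) ^ k * a := by
      intro k
      induction k with
      | zero => simp
      | succ k ih2 => rw [pow_succ, ← mul_assoc, ih2, pow_succ]; simp only [mul_assoc]
    have hb' : b⁻¹ = b := inv_eq_of_mul_eq_one_left hb
    calc alt a b (k + 1) * (alt b a (k + 1))⁻¹
        = a * (alt b a k * (alt a b k)⁻¹) * b⁻¹ := by
          rw [alt_succ, alt_succ b a, mul_inv_rev]; simp only [mul_assoc]
      _ = a * (b * a) ^ k * b := by rw [ih hb ha, hb']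
      _ = (a * b) ^ (k + 1) := by rw [h1, pow_succ, mul_assoc]

variable (h : Coc s I)

include h

/-- reduced words in two letters are alternating -/
theorem Coc.alternating {x y : B} {α : List B} (hα : ∀ c ∈ α, c = x ∨ c = y)
    (hn : (ris s α).Nodup) : α = alw x y α.length ∨ α = alw y x α.length := by
  induction α with
  | nil => exact Or.inl rfl
  | cons c α ih =>
    rw [ris_cons, List.nodup_cons] at hn
    have h1 := ih (fun c hc => hα c (List.mem_cons_of_mem _ hc)) (hn.2.of_map _)
    have h2 : ∀ c', ∀ β, α = c' :: β → c' ≠ c := by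
      rintro c' β rfl rfl
      apply hn.1
      rw [ris_cons, List.map_cons, List.mem_cons]
      left
      rw [mul_inv_cancel_right]
    rw [List.length_cons, alw_succ, alw_succ]
    rcases Nat.eq_zero_or_pos α.length with h3 | h3
    · rw [List.length_eq_zero_iff.1 h3]
      rcases hα c List.mem_cons_self with rfl | rfl
      · left; rfl
      · right; rfl
    · obtain ⟨k, hk⟩ : ∃ k, α.length = k + 1 := ⟨α.length - 1, by omega⟩
      rcases h1 with h1 | h1
      · have h4 : x ≠ c := h2 x (alw y x k) (by rw [h1, hk, alw_succ]; )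
        rcases hα c List.mem_cons_self with h5 | h5
        · exact absurd h5.symm h4
        · right
          rw [h5, ← h1]
      · have h4 : y ≠ c := h2 y (alw x y k) (by rw [h1, hk, alw_succ])
        rcases hα c List.mem_cons_self with h5 | h5
        · left
          rw [h5, ← h1]
        · exact absurd h5.symm h4

/-- a word of minimal length is reduced -/
theorem Coc.nodup_of_card {ω : List B} (hω : ω.length ≤ (I (pr s ω)).ncard) :
    (ris s ω).Nodup := by
  by_contra h1
  obtain ⟨ω', -, h2, h3⟩ := h.del h1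
  have h4 := h.card_le ω'
  rw [h2] at h4
  omega

theorem Coc.le_order {x y : B} {k m : ℕ} (hn : (ris s (alw x y k)).Nodup) (hm : 0 < m)
    (hp : (s x * s y) ^ m = 1) : k ≤ m := by
  by_contra h1
  obtain ⟨υ, hυ⟩ := alw_prefix x y (m + 1) (k - (m + 1))
  rw [show m + 1 + (k - (m + 1)) = k by omega] at hυ
  rw [hυ, ris_append] at hn
  have h2 : (ris s (alw x y (m + 1))).Nodup := hn.of_append_left
  have h3 := h.card h2
  obtain ⟨j, rfl⟩ : ∃ j, m = j + 1 := ⟨m - 1, by omega⟩
  have h4 : pr s (alw x y (j + 1 + 1)) = pr s (alw y x j) := by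
    rw [pr_alw, pr_alw, alt_succ, ← alt_comm_of_pow (h.sq x) (h.sq y) hp, alt_succ, ← mul_assoc,
      h.sq, one_mul]
  have h5 := h.card_le (alw y x j)
  rw [← h4, h3, alw_length, alw_length] at h5
  omega

theorem Coc.dih_aux {x y : B} (hxy : x ≠ y) {k : ℕ} (hn : (ris s (alw x y k)).Nodup)
    (hk : 0 < k) (hy : s y ∈ I (pr s (alw x y k))) : orderOf (s x * s y) = k := by
  obtain ⟨β, h1, h2, h3⟩ := h.exc (h.mem_ris hy)
  rw [alw_length] at h3
  have h4 : pr s (y :: β) = pr s (alw x y k) := by
    rw [pr_cons, h2, ← mul_assoc, h.sq, one_mul]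
  have h5 : (ris s (y :: β)).Nodup := by
    apply h.nodup_of_card
    rw [h4, h.card hn, alw_length, List.length_cons]
    omega
  have h6 : ∀ c ∈ y :: β, c = x ∨ c = y := by
    intro c hc
    rcases List.mem_cons.1 hc with rfl | hc
    · exact Or.inr rfl
    · exact mem_alw (h1.subset hc)
  have h7 : (y :: β).length = k := by rw [List.length_cons]; omega
  have h8 : y :: β = alw y x k := by
    rcases h.alternating h6 h5 with h8 | h8
    · exfalso
      rw [h7] at h8
      obtain ⟨j, rfl⟩ : ∃ j, k = j + 1 := ⟨k - 1, by omega⟩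
      rw [alw_succ] at h8
      exact hxy (List.cons.inj h8).1.symm
    · rw [h7] at h8
      exact h8
  rw [h8, pr_alw, pr_alw] at h4
  have h9 : (s x * s y) ^ k = 1 := by
    rw [← alt_mul_inv (h.sq x) (h.sq y) k, h4, mul_inv_cancel]
  have h10 : 0 < orderOf (s x * s y) := orderOf_pos_iff.2 (isOfFinOrder_iff_pow_eq_one.2
    ⟨k, hk, h9⟩)
  refine le_antisymm (Nat.le_of_dvd hk (orderOf_dvd_of_pow_eq_one h9)) ?_
  exact h.le_order hn h10 (pow_orderOf_eq_one _)

theorem Coc.dih {x y : B} (hxy : x ≠ y) {α : List B} (hα : ∀ c ∈ α, c = x ∨ c = y)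
    (hn : (ris s α).Nodup) (hx : s x ∈ I (pr s α)) (hy : s y ∈ I (pr s α)) :
    0 < α.length ∧ orderOf (s x * s y) = α.length ∧ pr s α = alt (s x) (s y) α.length := by
  have h0 : 0 < α.length := by
    rw [List.length_pos_iff]
    rintro rfl
    exact h.one _ hx
  have hc : orderOf (s x * s y) = orderOf (s y * s x) := by
    rw [show s y * s x = (s x * s y)⁻¹ by rw [mul_inv_rev, h.inv_eq, h.inv_eq], orderOf_inv]
  have h2 : orderOf (s x * s y) = α.length := by
    rcases h.alternating hα hn with h1 | h1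
    · rw [h1] at hn hy
      exact h.dih_aux hxy hn h0 hy
    · rw [h1] at hn hx
      rw [hc]
      exact h.dih_aux hxy.symm hn h0 hx
  refine ⟨h0, h2, ?_⟩
  rcases h.alternating hα hn with h1 | h1
  · rw [← pr_alw, ← h1]
  · rw [alt_comm_of_pow (h.sq x) (h.sq y) (by rw [← h2]; exact pow_orderOf_eq_one _), ← pr_alw,
      ← h1]

/-- two left descents -/
theorem Coc.step {x y : B} (hxy : x ≠ y) (γ : List B) (hx : s x ∈ I (pr s γ))
    (hy : s y ∈ I (pr s γ)) : ∃ υ : List B, 0 < orderOf (s x * s y) ∧
      pr s γ = alt (s x) (s y) (orderOf (s x * s y)) * pr s υ ∧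
      orderOf (s x * s y) + υ.length = (I (pr s γ)).ncard := by
  classical
  have hP : ∃ n : ℕ, ∃ α υ : List B, (∀ c ∈ α, c = x ∨ c = y) ∧ pr s γ = pr s α * pr s υ ∧
      υ.length = n := ⟨γ.length, [], γ, by simp, by simp, rfl⟩
  obtain ⟨α₀, υ, h1, h2, h3⟩ := Nat.find_spec hP
  have hmin : ∀ α' υ' : List B, (∀ c ∈ α', c = x ∨ c = y) → pr s γ = pr s α' * pr s υ' →
      υ.length ≤ υ'.length := by
    intro α' υ' h4 h5
    rw [h3]
    exact Nat.find_min' hP ⟨α', υ', h4, h5, rfl⟩
  obtain ⟨α, h4, h5, h6⟩ := h.min α₀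
  have hα : ∀ c ∈ α, c = x ∨ c = y := fun c hc => h1 c (h4.subset hc)
  rw [← h5] at h2
  have hυ : (ris s υ).Nodup := by
    by_contra h7
    obtain ⟨υ', -, h8, h9⟩ := h.del h7
    have := hmin α υ' hα (by rw [h8]; exact h2)
    omega
  have hcl : ∀ β : List B, ∀ c : B, (∀ c ∈ β, c = x ∨ c = y) → (c = x ∨ c = y) →
      pr s β * s c * (pr s β)⁻¹ ∉ ris s υ := by
    intro β c hβ hc h7
    obtain ⟨υ', -, h8, h9⟩ := h.exc h7
    have := hmin (α ++ (β ++ ([c] ++ β.reverse))) υ' (by
      intro d hd
      rw [List.mem_append, List.mem_append, List.mem_append, List.mem_singleton,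
        List.mem_reverse] at hd
      rcases hd with hd | hd | hd | hd
      · exact hα d hd
      · exact hβ d hd
      · rw [hd]; exact hc
      · exact hβ d hd) (by
      rw [h2, pr_append, pr_append, pr_append, h.pr_reverse, h8, pr_cons, pr_nil, mul_one]
      have h10 : s c * s c = 1 := h.sq c
      calc pr s α * pr s υ = pr s α * (pr s β * (s c * s c) * (pr s β)⁻¹) * pr s υ := by
            rw [h10]; group
        _ = _ := by group)
    omega
  -- the reflections of the first word
  have hris : ∀ α' : List B, (∀ c ∈ α', c = x ∨ c = y) → ∀ r ∈ ris s α', ∃ β : List B, ∃ c : B,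
      (∀ c ∈ β, c = x ∨ c = y) ∧ (c = x ∨ c = y) ∧ r = pr s β * s c * (pr s β)⁻¹ := by
    intro α' hα'
    induction α' with
    | nil => intro r hr; simp at hr
    | cons b α' ih =>
      intro r hr
      rw [ris_cons, List.mem_cons] at hr
      rcases hr with rfl | hr
      · exact ⟨[], b, by simp, hα' b List.mem_cons_self, by simp⟩
      · obtain ⟨r', hr', rfl⟩ := List.mem_map.1 hr
        obtain ⟨β, c, h7, h8, rfl⟩ := ih (fun c hc => hα' c (List.mem_cons_of_mem _ hc)) r' hr'
        refine ⟨b :: β, c, ?_, h8, by rw [pr_cons]; group⟩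
        intro d hd
        rcases List.mem_cons.1 hd with rfl | hd
        · exact hα' d List.mem_cons_self
        · exact h7 d hd
  have hdesc : ∀ c : B, (c = x ∨ c = y) → s c ∈ I (pr s γ) → s c ∈ I (pr s α) := by
    intro c hc h7
    rw [h2, h.mul] at h7
    by_contra h8
    apply h7
    refine ⟨fun h9 => absurd h9 h8, fun h9 => ?_⟩
    exfalso
    refine hcl α.reverse c (fun d hd => hα d (List.mem_reverse.1 hd)) hc ?_
    rw [h.pr_reverse, inv_inv]
    exact h.mem_ris h9
  obtain ⟨h7, h8, h9⟩ := h.dih hxy hα h6 (hdesc x (Or.inl rfl) hx) (hdesc y (Or.inr rfl) hy)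
  refine ⟨υ, by omega, by rw [h8, ← h9]; exact h2, ?_⟩
  have h10 : (ris s (α ++ υ)).Nodup := by
    rw [ris_append, List.nodup_append]
    refine ⟨h6, hυ.map (conj_inj _), ?_⟩
    intro r hr r' hr' hrr
    obtain ⟨u, hu, rfl⟩ := List.mem_map.1 hr'
    obtain ⟨β, c, h11, h12, h13⟩ := hris α hα r hr
    refine hcl (α.reverse ++ β) c ?_ h12 ?_
    · intro d hd
      rcases List.mem_append.1 hd with hd | hd
      · exact hα d (List.mem_reverse.1 hd)
      · exact h11 d hd
    · have h14 : u = pr s (α.reverse ++ β) * s c * (pr s (α.reverse ++ β))⁻¹ := by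
        rw [pr_append, h.pr_reverse]
        have h15 : u = (pr s α)⁻¹ * r * pr s α := by rw [hrr]; group
        rw [h15, h13]
        group
      rw [← h14]
      exact hu
  rw [h2, ← pr_append, h.card h10, List.length_append, h8]

end Pool.Agent.L7h78.RS
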