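import Pool.Agent.Helper741.Alt

/-!
# Groups with a cocycle of reflections are Coxeter groups

`s : B → G` is an injective family of involutions of a group `G`, and `I g` is a set of elements of
`G` for every `g`, such that `I (a b)` is the symmetric difference of `I a` and `a (I b) a⁻¹`, and
`I (s b) = {s b}`. Then the subgroup generated by the `s b` is a Coxeter group.
-/

set_option autoImplicit false

namespace Pool.Agent.L7h78.RS

open Pool.Agent.Helper741 (alt alt_succ alt_zero alt_mul_two alt_mul_two_add_one alt_comm_of_pow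
  refl_mul_alt map_alt)

variable {G B : Type} [Group G]

/-- the cocycle of the reflections separating a chamber from its image -/
structure Coc (s : B → G) (I : G → Set G) : Prop where
  mul : ∀ a b r, r ∈ I (a * b) ↔ ¬ (r ∈ I a ↔ a⁻¹ * r * a ∈ I b)
  gen : ∀ b r, r ∈ I (s b) ↔ r = s b
  sq : ∀ b, s b * s b = 1
  inj : Function.Injective s

section words

variable {s : B → G} {I : G → Set G}

/-- the product of a word -/
def pr (s : B → G) (ω : List B) : G := (ω.map s).prod

@[simp] theorem pr_nil : pr s [] = 1 := rfl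

@[simp] theorem pr_cons (b : B) (ω : List B) : pr s (b :: ω) = s b * pr s ω := by
  simp [pr]

@[simp] theorem pr_append (ω υ : List B) : pr s (ω ++ υ) = pr s ω * pr s υ := by
  simp [pr]

/-- the reflections crossed by a word -/
def ris (s : B → G) : List B → List G
  | [] => []
  | b :: ω => s b :: (ris s ω).map (fun r => s b * r * (s b)⁻¹)

@[simp] theorem ris_nil : ris s [] = [] := rfl

@[simp] theorem ris_cons (b : B) (ω : List B) :
    ris s (b :: ω) = s b :: (ris s ω).map (fun r => s b * r * (s b)⁻¹) := rfl

theorem ris_length (ω : List B) : (ris s ω).length = ω.length := by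
  induction ω with
  | nil => rfl
  | cons b ω ih => simp [ih]

theorem conj_inj (a : G) : Function.Injective (fun r : G => a * r * a⁻¹) := by
  intro x y h
  exact mul_left_cancel (mul_right_cancel h)

theorem ris_append (ω υ : List B) :
    ris s (ω ++ υ) = ris s ω ++ (ris s υ).map (fun r => pr s ω * r * (pr s ω)⁻¹) := by
  induction ω with
  | nil => simp
  | cons b ω ih =>
    rw [List.cons_append, ris_cons, ih, ris_cons, List.map_append, List.cons_append,
      List.map_map]
    congr 2
    apply List.map_congr_left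
    intro r _
    simp only [Function.comp, pr_cons, mul_inv_rev]
    group

variable (h : Coc s I)

include h

theorem Coc.inv_eq (b : B) : (s b)⁻¹ = s b := inv_eq_of_mul_eq_one_left (h.sq b)

theorem Coc.one (r : G) : r ∉ I 1 := by
  intro hr
  have h1 := h.mul 1 1 r
  rw [mul_one] at h1
  have h2 := h1.1 hr
  simp only [inv_one, one_mul, mul_one, not_true_eq_false] at h2

theorem Coc.pr_reverse (ω : List B) : pr s ω.reverse = (pr s ω)⁻¹ := by
  induction ω with
  | nil => simp
  | cons b ω ih =>
    rw [List.reverse_cons, pr_append, ih, pr_cons b ω, mul_inv_rev, pr_cons, pr_nil, mul_one,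
      h.inv_eq]

theorem Coc.mem_ris {ω : List B} {r : G} (hr : r ∈ I (pr s ω)) : r ∈ ris s ω := by
  induction ω generalizing r with
  | nil => exact absurd hr (h.one r)
  | cons b ω ih =>
    rw [pr_cons, h.mul, h.gen] at hr
    rw [ris_cons, List.mem_cons]
    by_cases h1 : r = s b
    · exact Or.inl h1
    · right
      have h2 : (s b)⁻¹ * r * s b ∈ I (pr s ω) := by
        by_contra h3
        exact hr ⟨fun h4 => absurd h4 h1, fun h4 => absurd h4 h3⟩
      rw [List.mem_map]
      exact ⟨_, ih h2, by group⟩

theorem Coc.nod {ω : List B} (hω : (ris s ω).Nodup) (r : G) : r ∈ I (pr s ω) ↔ r ∈ ris s ω := by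
  refine ⟨h.mem_ris, ?_⟩
  induction ω generalizing r with
  | nil => intro hr; simp at hr
  | cons b ω ih =>
    intro hr
    rw [ris_cons, List.nodup_cons] at hω
    have h1 : (ris s ω).Nodup := hω.2.of_map _
    rw [pr_cons, h.mul, h.gen]
    rw [ris_cons, List.mem_cons] at hr
    intro h2
    rcases hr with rfl | hr
    · have h3 := h.mem_ris (h2.1 rfl)
      exact hω.1 (List.mem_map.2 ⟨_, h3, by group⟩)
    · obtain ⟨r', hr', h5⟩ := List.mem_map.1 hr
      have h3 : (s b)⁻¹ * r * s b = r' := by
        rw [← h5]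
        group
      rw [h3] at h2
      have h4 := h2.2 (ih h1 r' hr')
      rw [h4] at hr
      exact hω.1 hr

theorem Coc.exc {ω : List B} {r : G} (hr : r ∈ ris s ω) :
    ∃ ω' : List B, ω'.Sublist ω ∧ pr s ω' = r * pr s ω ∧ ω'.length + 1 = ω.length := by
  induction ω generalizing r with
  | nil => simp at hr
  | cons b ω ih =>
    rw [ris_cons, List.mem_cons] at hr
    rcases hr with rfl | hr
    · refine ⟨ω, List.sublist_cons_self _ _, ?_, by simp⟩
      rw [pr_cons, ← mul_assoc, h.sq, one_mul]
    · obtain ⟨r', hr', rfl⟩ := List.mem_map.1 hr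
      obtain ⟨ω', h1, h2, h3⟩ := ih hr'
      refine ⟨b :: ω', h1.cons_cons b, ?_, by simp [h3]⟩
      rw [pr_cons, pr_cons, h2]
      group

theorem Coc.del {ω : List B} (hω : ¬ (ris s ω).Nodup) :
    ∃ ω' : List B, ω'.Sublist ω ∧ pr s ω' = pr s ω ∧ ω'.length < ω.length := by
  induction ω with
  | nil => exact absurd List.nodup_nil hω
  | cons b ω ih =>
    by_cases h1 : (ris s ω).Nodup
    · rw [ris_cons, List.nodup_cons, not_and_or, not_not] at hω
      rcases hω with h2 | h2
      · obtain ⟨r', hr', h3⟩ := List.mem_map.1 h2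
        have h4 : r' = s b := by
          have h5 : (s b)⁻¹ * (s b * r' * (s b)⁻¹) * s b = r' := by group
          rw [← h5]
          have h6 : s b * r' * (s b)⁻¹ = s b := h3
          rw [h6]
          group
        rw [h4] at hr'
        obtain ⟨ω', h5, h6, h7⟩ := h.exc hr'
        refine ⟨ω', h5.cons b, ?_, by simp; omega⟩
        rw [h6, pr_cons]
      · exact absurd (h1.map (conj_inj (s b))) h2
    · obtain ⟨ω', h2, h3, h4⟩ := ih h1
      exact ⟨b :: ω', h2.cons_cons b, by rw [pr_cons, pr_cons, h3], by simpa using h4⟩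

theorem Coc.min (ω : List B) :
    ∃ ω' : List B, ω'.Sublist ω ∧ pr s ω' = pr s ω ∧ (ris s ω').Nodup := by
  induction hn : ω.length using Nat.strong_induction_on generalizing ω with
  | _ n ih =>
  by_cases h1 : (ris s ω).Nodup
  · exact ⟨ω, List.Sublist.refl _, rfl, h1⟩
  · obtain ⟨ω', h2, h3, h4⟩ := h.del h1
    obtain ⟨ω'', h5, h6, h7⟩ := ih _ (hn ▸ h4) ω' rfl
    exact ⟨ω'', h5.trans h2, h6.trans h3, h7⟩

theorem Coc.card {ω : List B} (hω : (ris s ω).Nodup) : (I (pr s ω)).ncard = ω.length := by
  classical
  have h1 : I (pr s ω) = ((ris s ω).toFinset : Set G) := by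
    ext r
    rw [h.nod hω]
    simp
  rw [h1, Set.ncard_coe_finset, List.toFinset_card_of_nodup hω, ris_length]

theorem Coc.card_le (ω : List B) : (I (pr s ω)).ncard ≤ ω.length := by
  obtain ⟨ω', h1, h2, h3⟩ := h.min ω
  rw [← h2, h.card h3]
  exact h1.length_le

end words

end Pool.Agent.L7h78.RS
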