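import Pool.Agent.L7h78.RS.Pres
import Pool.Agent.N77.CX.Main

/-!
# Groups acting on graphs by reflections
-/

set_option autoImplicit false

namespace Pool.Agent.L7h78.RS

open Pool.Agent.Y110.FJ (ClosedE)

/-- `G` acts on the connected graph `Ω` (the chambers of a reflection structure, joined by an edge if
they have a common panel) and `R` is a set of involutions in `G` (the reflections), invariant under
conjugation: every edge is flipped by exactly one reflection, every reflection flips an edge, and the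
edges flipped by a reflection are the edges between a set `A` of vertices (a half space) and its
complement. The graph need not be locally finite, and there may be infinitely many orbits. -/
structure ReflSys {G V : Type} [Group G] [MulAction G V] (Ω : SimpleGraph V) (R : Set G) : Prop where
  conn : Ω.Connected
  adj : ∀ (g : G) (x y : V), Ω.Adj x y → Ω.Adj (g • x) (g • y)
  conj : ∀ (g : G), ∀ r ∈ R, g * r * g⁻¹ ∈ R
  inv : ∀ r ∈ R, r * r = 1
  edge : ∀ r ∈ R, ∃ x, Ω.Adj x (r • x)
  flip : ∀ x y, Ω.Adj x y → ∃! r, r ∈ R ∧ r • x = y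
  sep : ∀ r ∈ R, ∃ A : Set V, ∀ x y, Ω.Adj x y → (r • x = y ↔ ¬ (x ∈ A ↔ y ∈ A))

variable {G V : Type} [Group G] [MulAction G V] {Ω : SimpleGraph V} {R : Set G}

open Classical in
/-- a half space -/
noncomputable def half (h : ReflSys Ω R) (r : G) : Set V :=
  if hr : r ∈ R then (h.sep r hr).choose else ∅

/-- the reflection separates two vertices -/
def Sp (h : ReflSys Ω R) (r : G) (x y : V) : Prop := ¬ (x ∈ half h r ↔ y ∈ half h r)

theorem sp_edge (h : ReflSys Ω R) {r : G} (hr : r ∈ R) {x y : V} (hxy : Ω.Adj x y) :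
    Sp h r x y ↔ r • x = y := by
  have h1 := (h.sep r hr).choose_spec x y hxy
  unfold Sp half
  rw [dif_pos hr]
  exact h1.symm

theorem sp_conj (h : ReflSys Ω R) {r : G} (hr : r ∈ R) (g : G) (x y : V) :
    Sp h (g * r * g⁻¹) (g • x) (g • y) ↔ Sp h r x y := by
  obtain ⟨p⟩ := h.conn.preconnected x y
  induction p with
  | nil => unfold Sp; simp
  | @cons u v w huv p ih =>
    have h1 : Sp h (g * r * g⁻¹) (g • u) (g • v) ↔ Sp h r u v := by
      rw [sp_edge h (h.conj g r hr) (h.adj g u v huv), sp_edge h hr huv, smul_smul,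
        inv_mul_cancel_right, mul_smul, smul_left_cancel_iff]
    unfold Sp at h1 ih ⊢
    tauto

/-- the reflections separating `x₀` from `g x₀` -/
def II (h : ReflSys Ω R) (x₀ : V) (g : G) : Set G := {r | r ∈ R ∧ Sp h r x₀ (g • x₀)}

/-- the reflections in the walls of the chamber `x₀` -/
abbrev Wall (Ω : SimpleGraph V) (R : Set G) (x₀ : V) : Type :=
  {r : G // r ∈ R ∧ Ω.Adj x₀ (r • x₀)}

theorem coc (h : ReflSys Ω R) (x₀ : V) :
    Coc (fun b : Wall Ω R x₀ => (b : G)) (II h x₀) where
  mul a b r := by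
    by_cases hr : r ∈ R
    · have h1 : a⁻¹ * r * a ∈ R := by
        have := h.conj a⁻¹ r hr
        rwa [inv_inv] at this
      have h2 : Sp h (a⁻¹ * r * a) x₀ (b • x₀) ↔ Sp h r (a • x₀) ((a * b) • x₀) := by
        have := sp_conj h h1 a x₀ (b • x₀)
        rw [show a * (a⁻¹ * r * a) * a⁻¹ = r by group, smul_smul] at this
        exact this.symm
      simp only [II, Set.mem_ofPred_eq, hr, h1, true_and, h2]
      unfold Sp
      tauto
    · have h1 : a⁻¹ * r * a ∉ R := by
        intro h2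
        apply hr
        have := h.conj a _ h2
        rwa [show a * (a⁻¹ * r * a) * a⁻¹ = r by group] at this
      simp only [II, Set.mem_ofPred_eq, hr, h1, false_and]
      tauto
  gen b r := by
    obtain ⟨b, hb, hb'⟩ := b
    constructor
    · rintro ⟨h1, h2⟩
      rw [sp_edge h h1 hb'] at h2
      exact (h.flip x₀ (b • x₀) hb').unique ⟨h1, h2⟩ ⟨hb, rfl⟩
    · rintro rfl
      exact ⟨hb, (sp_edge h hb hb').2 rfl⟩
  sq b := h.inv _ b.2.1
  inj := Subtype.val_injective

theorem reach (h : ReflSys Ω R) (x₀ v : V) :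
    ∃ n ∈ Subgroup.closure (Set.range (fun b : Wall Ω R x₀ => (b : G))), n • x₀ = v := by
  have h1 := (SimpleGraph.reachable_iff_reflTransGen x₀ v).1 (h.conn.preconnected x₀ v)
  induction h1 with
  | refl => exact ⟨1, one_mem _, one_smul _ _⟩
  | @tail u v _ huv ih =>
    obtain ⟨n, hn, rfl⟩ := ih
    have h2 : Ω.Adj x₀ (n⁻¹ • v) := by
      have := h.adj n⁻¹ _ _ huv
      rwa [inv_smul_smul] at this
    obtain ⟨r, ⟨hr, h3⟩, -⟩ := h.flip _ _ h2
    refine ⟨n * r, mul_mem hn (Subgroup.subset_closure ⟨⟨r, hr, by rw [h3]; exact h2⟩, rfl⟩), ?_⟩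
    rw [mul_smul, h3, smul_inv_smul]

theorem closure_eq (h : ReflSys Ω R) (x₀ : V) :
    Subgroup.closure (Set.range (fun b : Wall Ω R x₀ => (b : G))) = Subgroup.closure R := by
  apply le_antisymm
  · apply Subgroup.closure_mono
    rintro _ ⟨b, rfl⟩
    exact b.2.1
  · rw [Subgroup.closure_le]
    intro r hr
    obtain ⟨x, hx⟩ := h.edge r hr
    obtain ⟨n, hn, rfl⟩ := reach h x₀ x
    have h1 : n⁻¹ * r * n ∈ R := by
      have := h.conj n⁻¹ r hr
      rwa [inv_inv] at this
    have h2 : Ω.Adj x₀ ((n⁻¹ * r * n) • x₀) := by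
      have := h.adj n⁻¹ _ _ hx
      rwa [inv_smul_smul, smul_smul, smul_smul] at this
    have h3 := mul_mem (mul_mem hn (Subgroup.subset_closure
      (⟨⟨n⁻¹ * r * n, h1, h2⟩, rfl⟩ : n⁻¹ * r * n ∈ Set.range fun b : Wall Ω R x₀ => (b : G))))
      (inv_mem hn)
    rwa [show n * (n⁻¹ * r * n) * n⁻¹ = r by group] at h3

theorem free (h : ReflSys Ω R) (x₀ : V) {n : G} (hn : n ∈ Subgroup.closure R)
    (h0 : n • x₀ = x₀) : n = 1 := by
  rw [← closure_eq h x₀, ← pp_range (coc h x₀)] at hn
  obtain ⟨u, rfl⟩ := hn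
  obtain ⟨ω, rfl⟩ := (acs (coc h x₀)).wordProd_surjective u
  rw [pp_word] at h0 ⊢
  obtain ⟨ω', -, h1, h2⟩ := (coc h x₀).min ω
  rw [← h1] at h0 ⊢
  have h3 := (coc h x₀).card h2
  have h4 : II h x₀ (pr (fun b : Wall Ω R x₀ => (b : G)) ω') = ∅ := by
    apply Set.eq_empty_of_forall_notMem
    rintro r ⟨-, hr⟩
    rw [h0] at hr
    exact hr Iff.rfl
  rw [h4, Set.ncard_empty] at h3
  rw [List.length_eq_zero_iff.1 h3.symm, pr_nil]

theorem closure_normal (h : ReflSys Ω R) : (Subgroup.closure R).Normal := by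
  constructor
  intro n hn g
  induction hn using Subgroup.closure_induction with
  | mem x hx => exact Subgroup.subset_closure (h.conj g x hx)
  | one => simp
  | mul x y _ _ hx hy =>
    have := mul_mem hx hy
    rwa [show g * x * g⁻¹ * (g * y * g⁻¹) = g * (x * y) * g⁻¹ by group] at this
  | inv x _ hx =>
    have := inv_mem hx
    rwa [show (g * x * g⁻¹)⁻¹ = g * x⁻¹ * g⁻¹ by group] at this

/-- the subgroup generated by the reflections is a Coxeter group -/
noncomputable def csys (h : ReflSys Ω R) (x₀ : V) :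
    CoxeterSystem (mat (coc h x₀)) ↥(Subgroup.closure R) where
  mulEquiv := ((MonoidHom.ofInjective (pp_injective (coc h x₀))).trans
    (MulEquiv.subgroupCongr ((pp_range (coc h x₀)).trans (closure_eq h x₀)))).symm

theorem csys_simple (h : ReflSys Ω R) (x₀ : V) (b : Wall Ω R x₀) :
    ((csys h x₀).simple b : G) = b := pp_simple (coc h x₀) b

/-- the stabilizer of the chamber permutes its walls -/
@[reducible] def wallAction (h : ReflSys Ω R) (x₀ : V) :
    MulAction ↥(MulAction.stabilizer G x₀) (Wall Ω R x₀) where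
  smul q b := ⟨q * b * (q : G)⁻¹, h.conj _ _ b.2.1, by
    have h1 : (q : G) • x₀ = x₀ := q.2
    have h2 : (q : G)⁻¹ • x₀ = x₀ := by rw [inv_smul_eq_iff, h1]
    rw [mul_smul, h2, mul_smul]
    conv => arg 2; rw [← h1]
    exact h.adj _ _ _ b.2.2⟩
  one_smul b := Subtype.ext (by
    show ((1 : ↥(MulAction.stabilizer G x₀)) : G) * b * ((1 : ↥(MulAction.stabilizer G x₀)) : G)⁻¹
      = b
    simp)
  mul_smul q q' b := Subtype.ext (by
    show ((q * q' : ↥(MulAction.stabilizer G x₀)) : G) * b *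
      ((q * q' : ↥(MulAction.stabilizer G x₀)) : G)⁻¹ = q * (q' * b * (q' : G)⁻¹) * (q : G)⁻¹
    rw [Subgroup.coe_mul]
    group)

/-- **groups acting on graphs by reflections** -/
theorem refl_main {C : ∀ (G : Type) [Group G], Prop} (hC : ClosedE C)
    (hcox : ∀ (S : Type) (_ : Finite S) (A : CoxeterMatrix S), C A.Group)
    (h : ReflSys Ω R) (x₀ : V) (hQ : C ↥(MulAction.stabilizer G x₀)) : C G := by
  have hN : (Subgroup.closure R).Normal := closure_normal h
  let _ := wallAction h x₀
  have hx : ∀ g : G, ∃ n ∈ Subgroup.closure R, ∃ q ∈ MulAction.stabilizer G x₀, n * q = g := by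
    intro g
    obtain ⟨n, hn, h1⟩ := reach h x₀ (g • x₀)
    rw [closure_eq h x₀] at hn
    exact ⟨n, hn, n⁻¹ * g, by
      rw [MulAction.mem_stabilizer_iff, mul_smul, inv_smul_eq_iff, h1], by group⟩
  refine Pool.Agent.N77.CX.cox_main (N := Subgroup.closure R) (csys h x₀) hC hcox
    (MulAction.stabilizer G x₀) ?_ ?_ ?_ ?_
  · rw [eq_top_iff]
    intro g _
    obtain ⟨n, hn, q, hq, rfl⟩ := hx g
    exact mul_mem (Subgroup.mem_sup_left hn) (Subgroup.mem_sup_right hq)
  · intro m b b'
    show orderOf ((m : G) * b * (m : G)⁻¹ * ((m : G) * b' * (m : G)⁻¹)) = orderOf ((b : G) * b')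
    rw [show (m : G) * b * (m : G)⁻¹ * ((m : G) * b' * (m : G)⁻¹) =
      MulAut.conj (m : G) ((b : G) * b') by simp [MulAut.conj_apply, mul_assoc]]
    exact (MulAut.conj (m : G)).orderOf_eq _
  · intro m b
    rw [csys_simple, csys_simple]
    rfl
  · obtain ⟨φ, hφ⟩ : ∃ φ : ↥(MulAction.stabilizer G x₀) →* G ⧸ Subgroup.closure R,
        φ = (QuotientGroup.mk' (Subgroup.closure R)).comp (MulAction.stabilizer G x₀).subtype :=
      ⟨_, rfl⟩
    have hφ' : ∀ q, φ q = QuotientGroup.mk' (Subgroup.closure R) (q : G) := by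
      intro q
      rw [hφ]
      rfl
    have hinj : Function.Injective φ := by
      rw [injective_iff_map_eq_one]
      intro q hq
      rw [hφ', QuotientGroup.mk'_apply, QuotientGroup.eq_one_iff] at hq
      exact Subtype.ext (free h x₀ hq q.2)
    have hsurj : Function.Surjective φ := by
      intro y
      obtain ⟨g, rfl⟩ := QuotientGroup.mk'_surjective _ y
      obtain ⟨n, hn, q, hq, rfl⟩ := hx g
      refine ⟨⟨q, hq⟩, ?_⟩
      rw [hφ', map_mul]
      have h1 : QuotientGroup.mk' (Subgroup.closure R) n = 1 := by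
        rw [QuotientGroup.mk'_apply, QuotientGroup.eq_one_iff]
        exact hn
      rw [h1, one_mul]
    exact hC.base.of_injective _ _ (MulEquiv.ofBijective φ ⟨hinj, hsurj⟩).symm.toMonoidHom
      (MulEquiv.injective _) hQ

end Pool.Agent.L7h78.RS
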