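import Pool.Agent.L7h78.RS.Inj

/-!
# Groups with a cocycle of reflections are Coxeter groups: injectivity
-/

set_option autoImplicit false

namespace Pool.Agent.L7h78.RS

open Pool.Agent.Helper741 (alt alt_succ alt_zero alt_comm_of_pow)

variable {G B : Type} [Group G] {s : B → G} {I : G → Set G}

/-- the Coxeter matrix of the orders of the products -/
noncomputable def mat (h : Coc s I) : CoxeterMatrix B where
  M := Matrix.of fun x y => orderOf (s x * s y)
  isSymm := by
    ext x y
    show orderOf (s y * s x) = orderOf (s x * s y)
    rw [show s y * s x = (s x * s y)⁻¹ by rw [mul_inv_rev, h.inv_eq, h.inv_eq], orderOf_inv]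
  diagonal x := by
    show orderOf (s x * s x) = 1
    rw [h.sq, orderOf_one]
  off_diagonal x y hxy := by
    show orderOf (s x * s y) ≠ 1
    rw [Ne, orderOf_eq_one_iff]
    intro h1
    apply hxy
    apply h.inj
    rw [← h.inv_eq y]
    exact eq_inv_of_mul_eq_one_left h1

theorem mat_apply (h : Coc s I) (x y : B) : mat h x y = orderOf (s x * s y) := rfl

/-- the Coxeter system of the abstract group -/
noncomputable abbrev acs (h : Coc s I) : CoxeterSystem (mat h) (mat h).Group :=
  (mat h).toCoxeterSystem

/-- the homomorphism from the abstract Coxeter group -/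
noncomputable def pp (h : Coc s I) : (mat h).Group →* G :=
  (acs h).lift ⟨s, fun x y => pow_orderOf_eq_one _⟩

theorem pp_simple (h : Coc s I) (b : B) : pp h ((acs h).simple b) = s b :=
  CoxeterSystem.lift_apply_simple _ _ _

theorem pp_word (h : Coc s I) (ω : List B) : pp h ((acs h).wordProd ω) = pr s ω := by
  induction ω with
  | nil => simp
  | cons b ω ih => rw [CoxeterSystem.wordProd_cons, map_mul, ih, pp_simple, pr_cons]

theorem wordProd_alw (h : Coc s I) (x y : B) (k : ℕ) :
    (acs h).wordProd (alw x y k) = alt ((acs h).simple x) ((acs h).simple y) k := by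
  induction k generalizing x y with
  | zero => simp
  | succ k ih => rw [alw_succ, CoxeterSystem.wordProd_cons, ih, alt_succ]

theorem red_nodup (h : Coc s I) (n : ℕ)
    (hA : ∀ u v : (mat h).Group, (acs h).length u ≤ n → (acs h).length v ≤ n →
      pp h u = pp h v → u = v) (ω : List B) (hω : (acs h).IsReduced ω) (hn : ω.length ≤ n + 1) :
    (ris s ω).Nodup := by
  induction ω with
  | nil => exact List.nodup_nil
  | cons b ω ih =>
    rw [List.length_cons] at hn
    have hω' : (acs h).IsReduced ω := by simpa using hω.drop 1
    have h1 := ih hω' (by omega)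
    rw [ris_cons, List.nodup_cons]
    refine ⟨fun h2 => ?_, h1.map (conj_inj _)⟩
    obtain ⟨r', hr', h3⟩ := List.mem_map.1 h2
    have h4 : r' = s b := by
      have h5 : (s b)⁻¹ * (s b * r' * (s b)⁻¹) * s b = r' := by group
      rw [← h5]
      have h6 : s b * r' * (s b)⁻¹ = s b := h3
      rw [h6]
      group
    rw [h4] at hr'
    obtain ⟨ω', h5, h6, h7⟩ := h.exc hr'
    have h8 : (acs h).wordProd (b :: ω') = (acs h).wordProd ω := by
      apply hA
      · refine ((acs h).length_wordProd_le _).trans ?_
        rw [List.length_cons]
        omega
      · refine ((acs h).length_wordProd_le _).trans ?_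
        omega
      · rw [pp_word, pp_word, pr_cons, h6, ← mul_assoc, h.sq, one_mul]
    have h9 : (acs h).wordProd (b :: ω) = (acs h).wordProd ω' := by
      rw [CoxeterSystem.wordProd_cons, ← h8, CoxeterSystem.wordProd_cons,
        CoxeterSystem.simple_mul_simple_cancel_left]
    have h10 := hω.eq
    rw [h9, List.length_cons] at h10
    have h11 := (acs h).length_wordProd_le ω'
    omega

theorem pp_inj_aux (h : Coc s I) (n : ℕ) : ∀ u v : (mat h).Group, (acs h).length u ≤ n →
    (acs h).length v ≤ n → pp h u = pp h v → u = v := by
  induction n with
  | zero =>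
    intro u v hu hv _
    rw [Nat.le_zero, CoxeterSystem.length_eq_zero_iff] at hu hv
    rw [hu, hv]
  | succ n hA =>
    have hcard : ∀ ω : List B, (acs h).IsReduced ω → ω.length ≤ n + 1 →
        (I (pr s ω)).ncard = ω.length := fun ω h1 h2 => h.card (red_nodup h n hA ω h1 h2)
    intro u v hu hv huv
    obtain ⟨ω, hω, rfl⟩ := (acs h).exists_isReduced u
    obtain ⟨ω', hω', rfl⟩ := (acs h).exists_isReduced v
    rw [hω.eq] at hu
    rw [hω'.eq] at hv
    rw [pp_word, pp_word] at huv
    have h1 := hcard ω hω hu
    have h2 := hcard ω' hω' hv
    rw [← huv, h1] at h2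
    rcases Nat.lt_or_ge ω.length (n + 1) with h3 | h3
    · apply hA
      · rw [hω.eq]; omega
      · rw [hω'.eq]; omega
      · rw [pp_word, pp_word, huv]
    · match ω, ω' with
      | [], _ => simp at h3
      | _ :: _, [] => simp at h2
      | b :: ω, c :: ω' =>
        rw [List.length_cons] at h1 h2 h3 hu hv
        by_cases hbc : b = c
        · subst hbc
          rw [CoxeterSystem.wordProd_cons, CoxeterSystem.wordProd_cons]
          congr 1
          apply hA
          · exact ((acs h).length_wordProd_le _).trans (by omega)
          · exact ((acs h).length_wordProd_le _).trans (by simp at h2; omega)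
          · rw [pp_word, pp_word]
            rw [pr_cons, pr_cons] at huv
            exact mul_left_cancel huv
        · have hb : s b ∈ I (pr s (b :: ω)) := by
            rw [h.nod (red_nodup h n hA _ hω (by simpa using hu))]
            exact List.mem_cons_self
          have hc : s c ∈ I (pr s (b :: ω)) := by
            rw [huv, h.nod (red_nodup h n hA _ hω' (by simpa using hv))]
            exact List.mem_cons_self
          obtain ⟨υ, h4, h5, h6⟩ := h.step hbc (b :: ω) hb hc
          obtain ⟨m, hm⟩ : ∃ m, orderOf (s b * s c) = m := ⟨_, rfl⟩
          rw [hm] at h4 h5 h6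
          rw [h1] at h6
          obtain ⟨j, rfl⟩ : ∃ j, m = j + 1 := ⟨m - 1, by omega⟩
          have h7 : alt (s b) (s c) (j + 1) = alt (s c) (s b) (j + 1) :=
            alt_comm_of_pow (h.sq b) (h.sq c) (by rw [← hm]; exact pow_orderOf_eq_one _)
          have h8 : (acs h).wordProd (alw b c (j + 1)) = (acs h).wordProd (alw c b (j + 1)) := by
            rw [wordProd_alw, wordProd_alw]
            apply alt_comm_of_pow (CoxeterSystem.simple_mul_simple_self _ _)
              (CoxeterSystem.simple_mul_simple_self _ _)
            have := (acs h).simple_mul_simple_pow b c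
            rw [mat_apply, hm] at this
            exact this
          have h9 : (acs h).wordProd ω = (acs h).wordProd (alw c b j ++ υ) := by
            apply hA
            · exact ((acs h).length_wordProd_le _).trans (by omega)
            · refine ((acs h).length_wordProd_le _).trans ?_
              rw [List.length_append, alw_length]
              omega
            · rw [pp_word, pp_word, pr_append, pr_alw]
              rw [pr_cons, alt_succ, mul_assoc] at h5
              exact mul_left_cancel h5
          have h10 : (acs h).wordProd ω' = (acs h).wordProd (alw b c j ++ υ) := by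
            apply hA
            · exact ((acs h).length_wordProd_le _).trans (by simp at h2; omega)
            · refine ((acs h).length_wordProd_le _).trans ?_
              rw [List.length_append, alw_length]
              omega
            · rw [pp_word, pp_word, pr_append, pr_alw]
              rw [huv, h7, pr_cons, alt_succ, mul_assoc] at h5
              exact mul_left_cancel h5
          rw [CoxeterSystem.wordProd_cons, CoxeterSystem.wordProd_cons, h9, h10,
            ← CoxeterSystem.wordProd_cons, ← CoxeterSystem.wordProd_cons, ← List.cons_append,
            ← List.cons_append, ← alw_succ, ← alw_succ, CoxeterSystem.wordProd_append,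
            CoxeterSystem.wordProd_append, h8]

theorem pp_injective (h : Coc s I) : Function.Injective (pp h) := by
  intro u v huv
  exact pp_inj_aux h (max ((acs h).length u) ((acs h).length v)) u v (le_max_left _ _)
    (le_max_right _ _) huv

theorem pp_range (h : Coc s I) : (pp h).range = Subgroup.closure (Set.range s) := by
  apply le_antisymm
  · rintro _ ⟨u, rfl⟩
    obtain ⟨ω, rfl⟩ := (acs h).wordProd_surjective u
    rw [pp_word]
    induction ω with
    | nil => exact one_mem _
    | cons b ω ih =>
      rw [pr_cons]
      exact mul_mem (Subgroup.subset_closure ⟨b, rfl⟩) ih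
  · rw [Subgroup.closure_le]
    rintro _ ⟨b, rfl⟩
    exact ⟨_, pp_simple h b⟩

end Pool.Agent.L7h78.RS
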